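import Mathlib

/-!
Both conjectured congruences of the question fail at the prime `p = 7`.
-/

set_option autoImplicit false

namespace Pool.Agent.Results.MP_f96d9d_nt.SevenFails

/-- `u ≡ v (mod p^m)` in the ring of rationals whose denominator is prime to `p`:
`u - v = p^m r` with the denominator of `r` not divisible by `p` -/
def CongMod (p m : ℕ) (u v : ℚ) : Prop := ∃ r : ℚ, ¬ p ∣ r.den ∧ u - v = (p : ℚ) ^ m * r

/-- The coefficient of `x^n` in `(x² + b x + c)^n`: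
`T_n(b,c) = ∑_{j ≤ n/2} binom(n,2j) binom(2j,j) b^(n-2j) c^j` -/
def T (n : ℕ) (b c : ℤ) : ℤ :=
  ∑ j ∈ Finset.range (n / 2 + 1), (n.choose (2 * j) : ℤ) * ((2 * j).choose j) *
    b ^ (n - 2 * j) * c ^ j

/-- `∑_{k<p} T_k(b,c)³ / m^k` -/
def sum3 (p : ℕ) (b c m : ℤ) : ℚ :=
  ∑ k ∈ Finset.range p, ((T k b c : ℤ) : ℚ) ^ 3 / (m : ℚ) ^ k

theorem not_congMod {p m : ℕ} (hp : p ≠ 0) {u v : ℚ} (h : p ∣ ((u - v) / (p : ℚ) ^ m).den) :
    ¬ CongMod p m u v := by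
  rintro ⟨r, hr, h1⟩
  apply hr
  have h2 : (u - v) / (p : ℚ) ^ m = r := by
    rw [h1]
    have : (p : ℚ) ^ m ≠ 0 := pow_ne_zero _ (by exact_mod_cast hp)
    field_simp
  rw [← h2]
  exact h

/-- None of the four sums `A_1(7), A_2(7), B_1(7), B_2(7)` is congruent to `0` modulo `7²`,
although `7 ≡ 3 (mod 4)` and `7 ≡ 7 (mod 8)`; so both questions have a negative answer. -/
theorem result : Nat.Prime 7 ∧ 3 < 7 ∧ 7 % 4 = 3 ∧ 7 % 8 = 7 ∧
    ¬ CongMod 7 2 (sum3 7 18 49 512) 0 ∧ ¬ CongMod 7 2 (sum3 7 18 49 4096) 0 ∧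
    ¬ CongMod 7 2 (sum3 7 10 49 (-512)) 0 ∧ ¬ CongMod 7 2 (sum3 7 10 49 1728) 0 := by
  refine ⟨by norm_num, by norm_num, by norm_num, by norm_num, ?_, ?_, ?_, ?_⟩ <;>
    exact not_congMod (by norm_num) (by decide +kernel)

end Pool.Agent.Results.MP_f96d9d_nt.SevenFails
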